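import Mathlib
import Pool.Agent.Lib.MP_6a62cd_co.FourDefs
import Pool.Agent.Lib.MP_91d74e_co.Select
import Pool.Agent.Lib.MP_91d74e_co.Planar

/-!
Weighted flexibility of planar graphs with lists of size `k + 1` if the lists stay colourable after
the deletion of one colour from every list (for example if the graph is `k`-choosable).
-/

namespace Pool.Agent.Results.MP_91d74e_co.RobustPlanar

open Pool.Agent.Lib.MP_91d74e_co
open Pool.Agent.Lib.MP_6a62cd_co.Four

/-- Whatever colour `s v` is deleted from every list `L v`, the graph `G` has a colouring with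
defect `d` from the remaining lists. -/
def DeletionRobust {V : Type} (G : SimpleGraph V) (d : ℕ) (L : V → Finset ℕ) : Prop :=
  ∀ s : V → ℕ, (∀ v, s v ∈ L v) →
    ∃ ψ : V → ℕ, IsListColouring G d (fun v => (L v).erase (s v)) ψ

/-- Every weighted request `w` is `ε`-satisfiable, with colourings of defect `d`. For `d = 0` this
is weighted `ε`-flexibility of `(G, L)`. -/
def WeightedFlexible {V : Type} [Fintype V] (G : SimpleGraph V) (d : ℕ) (L : V → Finset ℕ)
    (ε : ℝ) : Prop :=
  ∀ w : V → ℕ → ℝ, (∀ v a, 0 ≤ w v a) → ∃ φ : V → ℕ, IsListColouring G d L φ ∧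
    ε * ∑ v, ∑ a ∈ L v, w v a ≤ ∑ v, w v (φ v)

theorem result (k d : ℕ) : ∃ ε : ℝ, 0 < ε ∧ ∀ (V : Type) [Fintype V] (G : SimpleGraph V),
    IsPlanar G → ∀ L : V → Finset ℕ, (∀ v, (L v).card = k + 1) → DeletionRobust G d L →
      WeightedFlexible G d L ε := by
  have hpos : (0 : ℝ) < (k + 1) * ((confBound 3 + 1) * (k + 1) ^ (4 * 3)) := by positivity
  refine ⟨((k + 1) * ((confBound 3 + 1) * (k + 1) ^ (4 * 3)))⁻¹, inv_pos.2 hpos, ?_⟩
  intro V _ G hG L hL hrob w hw
  obtain ⟨φ, h1, h2⟩ := flexible_of_sparse (planar_sparse hG) k d L hL hrob w hw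
  refine ⟨φ, h1, ?_⟩
  rw [inv_mul_le_iff₀ hpos]
  exact h2

end Pool.Agent.Results.MP_91d74e_co.RobustPlanar
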